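import Pool.Agent.helper5.LDH.Spec

/-!
# Row `ldh:PHD` (MP_4467b5_nt): differences of `log ((x + h) / x)`
-/

set_option autoImplicit false

open Complex MeasureTheory

namespace Pool.Agent.LDH

open Pool.Agent.helper84.DM Pool.Agent.helper78.ED Pool.Agent.DH

theorem PHD_D1 (f f' : ℝ → ℝ) (hf : ∀ x, 0 < x → HasDerivAt f (f' x) x) (x : ℝ) (hx : 0 < x) :
    ∃ c, x < c ∧ c < x + 1 ∧ f (x + 1) - f x = f' c := by
  have hcont : ContinuousOn f (Set.Icc x (x + 1)) := fun y hy =>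
    (hf y (lt_of_lt_of_le hx hy.1)).continuousAt.continuousWithinAt
  obtain ⟨c, hc, e⟩ := exists_hasDerivAt_eq_slope f f' (by linarith) hcont
    fun y hy => hf y (hx.trans hy.1)
  refine ⟨c, hc.1, hc.2, ?_⟩
  rw [e]
  have h1 : x + 1 - x = 1 := by ring
  rw [h1, div_one]

theorem PHD_sh (f f' : ℝ → ℝ) (hf : ∀ x, 0 < x → HasDerivAt f (f' x) x) (x : ℝ) (hx : 0 < x) :
    HasDerivAt (fun y => f (y + 1) - f y) (f' (x + 1) - f' x) x := by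
  have h1 : HasDerivAt (fun y => f (y + 1)) (f' (x + 1)) x := (hf (x + 1) (by linarith)).comp_add_const x 1
  exact h1.sub (hf x hx)

theorem PHD_D2 (f f' f'' : ℝ → ℝ) (hf : ∀ x, 0 < x → HasDerivAt f (f' x) x)
    (hf' : ∀ x, 0 < x → HasDerivAt f' (f'' x) x) (x : ℝ) (hx : 0 < x) :
    ∃ c, x < c ∧ c < x + 2 ∧ f (x + 2) - 2 * f (x + 1) + f x = f'' c := by
  obtain ⟨c, hc1, hc2, e⟩ := PHD_D1 (fun y => f (y + 1) - f y) (fun y => f' (y + 1) - f' y)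
    (PHD_sh f f' hf) x hx
  obtain ⟨c', hc1', hc2', e'⟩ := PHD_D1 f' f'' hf' c (hx.trans hc1)
  refine ⟨c', hc1.trans hc1', by linarith, ?_⟩
  rw [← e', ← e]
  have h1 : x + 1 + 1 = x + 2 := by ring
  simp only [h1]
  ring

theorem PHD_D3 (f f' f'' f''' : ℝ → ℝ) (hf : ∀ x, 0 < x → HasDerivAt f (f' x) x)
    (hf' : ∀ x, 0 < x → HasDerivAt f' (f'' x) x) (hf'' : ∀ x, 0 < x → HasDerivAt f'' (f''' x) x)
    (x : ℝ) (hx : 0 < x) :
    ∃ c, x < c ∧ c < x + 3 ∧ f (x + 3) - 3 * f (x + 2) + 3 * f (x + 1) - f x = f''' c := by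
  obtain ⟨c, hc1, hc2, e⟩ := PHD_D2 (fun y => f (y + 1) - f y) (fun y => f' (y + 1) - f' y)
    (fun y => f'' (y + 1) - f'' y) (PHD_sh f f' hf) (PHD_sh f' f'' hf') x hx
  obtain ⟨c', hc1', hc2', e'⟩ := PHD_D1 f'' f''' hf'' c (hx.trans hc1)
  refine ⟨c', hc1.trans hc1', by linarith, ?_⟩
  rw [← e', ← e]
  have h1 : x + 2 + 1 = x + 3 := by ring
  have h2 : x + 1 + 1 = x + 2 := by ring
  simp only [h1, h2]
  ring

theorem PHD_d1 (h : ℝ) (hh : 0 ≤ h) (x : ℝ) (hx : 0 < x) :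
    HasDerivAt (fun y => Real.log (y + h) - Real.log y) ((x + h)⁻¹ - x⁻¹) x := by
  have h1 : HasDerivAt (fun y : ℝ => y + h) 1 x := (hasDerivAt_id x).add_const h
  have h2 : x + h ≠ 0 := by positivity
  have h3 := h1.log h2
  rw [one_div] at h3
  exact h3.sub (Real.hasDerivAt_log hx.ne')

theorem PHD_d2 (h : ℝ) (hh : 0 ≤ h) (x : ℝ) (hx : 0 < x) :
    HasDerivAt (fun y => (y + h)⁻¹ - y⁻¹) ((x ^ 2)⁻¹ - ((x + h) ^ 2)⁻¹) x := by
  have h1 : HasDerivAt (fun y : ℝ => y + h) 1 x := (hasDerivAt_id x).add_const h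
  have h2 : x + h ≠ 0 := by positivity
  have h3 := h1.inv h2
  have h4 := hasDerivAt_inv hx.ne'
  refine (h3.sub h4).congr_deriv ?_
  rw [neg_div, one_div]
  ring

theorem PHD_d3 (h : ℝ) (hh : 0 ≤ h) (x : ℝ) (hx : 0 < x) :
    HasDerivAt (fun y => (y ^ 2)⁻¹ - ((y + h) ^ 2)⁻¹) (2 * ((x + h) ^ 3)⁻¹ - 2 * (x ^ 3)⁻¹) x := by
  have h1 : HasDerivAt (fun y : ℝ => y + h) 1 x := (hasDerivAt_id x).add_const h
  have h0 : HasDerivAt (fun y : ℝ => y) 1 x := hasDerivAt_id x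
  have h2 : x + h ≠ 0 := by positivity
  have h3 := (h1.pow 2).inv (pow_ne_zero 2 h2)
  have h4 := (h0.pow 2).inv (pow_ne_zero 2 hx.ne')
  refine (h4.sub h3).congr_deriv ?_
  simp only [Pi.pow_apply]
  have hx' := hx.ne'
  field_simp
  ring

theorem PHD_b2 (N h c : ℝ) (hN : 0 < N) (hh : 0 ≤ h) (hhN : h ≤ N) (h1 : N ≤ c) (h2 : c ≤ 2 * N) :
    h / (16 * N ^ 3) ≤ (c ^ 2)⁻¹ - ((c + h) ^ 2)⁻¹ ∧ (c ^ 2)⁻¹ - ((c + h) ^ 2)⁻¹ ≤ 2 * h / N ^ 3 := by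
  have hc : 0 < c := by linarith
  have hch : 0 < c + h := by linarith
  have e : (c ^ 2)⁻¹ - ((c + h) ^ 2)⁻¹ = h * (2 * c + h) / (c ^ 2 * (c + h) ^ 2) := by
    field_simp
    ring
  rw [e]
  constructor
  · rw [div_le_div_iff₀ (by positivity) (by positivity)]
    have a1 : c ^ 2 * (c + h) ^ 2 ≤ (2 * N) ^ 2 * ((2 * c + h) * (4 * N)) := by
      rw [pow_two (c + h)]
      gcongr <;> linarith
    calc h * (c ^ 2 * (c + h) ^ 2) ≤ h * ((2 * N) ^ 2 * ((2 * c + h) * (4 * N))) := by gcongr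
      _ = h * (2 * c + h) * (16 * N ^ 3) := by ring
  · rw [div_le_div_iff₀ (by positivity) (by positivity)]
    have a1 : (2 * c + h) * N ^ 3 ≤ (2 * (c + h)) * (c ^ 2 * (c + h)) := by
      have a2 : N ^ 3 ≤ c ^ 2 * (c + h) := by
        calc N ^ 3 = N ^ 2 * N := by ring
          _ ≤ c ^ 2 * (c + h) := by gcongr; linarith
      have a3 : 2 * c + h ≤ 2 * (c + h) := by linarith
      gcongr
    calc h * (2 * c + h) * N ^ 3 = h * ((2 * c + h) * N ^ 3) := by ring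
      _ ≤ h * ((2 * (c + h)) * (c ^ 2 * (c + h))) := by gcongr
      _ = 2 * h * (c ^ 2 * (c + h) ^ 2) := by ring

theorem PHD_b3 (N h c : ℝ) (hN : 0 < N) (hh : 0 ≤ h) (hhN : h ≤ N) (h1 : N ≤ c) (h2 : c ≤ 2 * N) :
    3 * h / (64 * N ^ 4) ≤ -(2 * ((c + h) ^ 3)⁻¹ - 2 * (c ^ 3)⁻¹) ∧
      -(2 * ((c + h) ^ 3)⁻¹ - 2 * (c ^ 3)⁻¹) ≤ 6 * h / N ^ 4 := by
  have hc : 0 < c := by linarith
  have hch : 0 < c + h := by linarith
  have e : -(2 * ((c + h) ^ 3)⁻¹ - 2 * (c ^ 3)⁻¹) =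
      2 * h * (3 * c ^ 2 + 3 * c * h + h ^ 2) / (c ^ 3 * (c + h) ^ 3) := by
    field_simp
    ring
  rw [e]
  constructor
  · rw [div_le_div_iff₀ (by positivity) (by positivity)]
    have a1 : c ^ 2 * (c + h) ^ 2 ≤ (2 * N) ^ 2 * (4 * N) ^ 2 := by
      gcongr
      linarith
    have a2 : 3 * c * (c + h) ≤ 3 * c ^ 2 + 3 * c * h + h ^ 2 := by nlinarith
    calc 3 * h * (c ^ 3 * (c + h) ^ 3) = h * ((3 * c * (c + h)) * (c ^ 2 * (c + h) ^ 2)) := by ring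
      _ ≤ h * ((3 * c ^ 2 + 3 * c * h + h ^ 2) * ((2 * N) ^ 2 * (4 * N) ^ 2)) := by gcongr
      _ ≤ 2 * h * (3 * c ^ 2 + 3 * c * h + h ^ 2) * (64 * N ^ 4) := by
        have a3 : 0 ≤ h * (3 * c ^ 2 + 3 * c * h + h ^ 2) * N ^ 4 := by positivity
        nlinarith
  · rw [div_le_div_iff₀ (by positivity) (by positivity)]
    have a1 : N ^ 4 ≤ c ^ 3 * (c + h) := by
      calc N ^ 4 = N ^ 3 * N := by ring
        _ ≤ c ^ 3 * (c + h) := by gcongr; linarith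
    have a2 : 3 * c ^ 2 + 3 * c * h + h ^ 2 ≤ 3 * (c + h) ^ 2 := by nlinarith [mul_nonneg hc.le hh]
    calc 2 * h * (3 * c ^ 2 + 3 * c * h + h ^ 2) * N ^ 4 ≤
        2 * h * (3 * (c + h) ^ 2) * (c ^ 3 * (c + h)) := by gcongr
      _ = 6 * h * (c ^ 3 * (c + h) ^ 3) := by ring

theorem PHD_lg (h n : ℕ) (hn : 0 < n) : lg h n = Real.log ((n : ℝ) + h) - Real.log n := by
  unfold lg
  have h1 : (0 : ℝ) < n := Nat.cast_pos.2 hn
  rw [Real.log_div (by positivity) h1.ne']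
  push_cast
  rfl

theorem PHD : PHD_stmt := by
  intro N h n h1 h2 h3
  have hN : (0 : ℝ) < N := Nat.cast_pos.2 (by omega)
  have hh : (0 : ℝ) ≤ h := Nat.cast_nonneg h
  have hhN : (h : ℝ) ≤ N := Nat.cast_le.2 h2
  have hNn : (N : ℝ) < n := Nat.cast_lt.2 h3
  have hn : (0 : ℝ) < n := hN.trans hNn
  have e0 := PHD_lg h n (by omega)
  have e1 := PHD_lg h (n + 1) (by omega)
  have e2 := PHD_lg h (n + 2) (by omega)
  have e3 := PHD_lg h (n + 3) (by omega)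
  push_cast at e1 e2 e3
  refine ⟨fun h4 => ?_, fun h4 => ?_⟩
  · obtain ⟨c, hc1, hc2, e⟩ := PHD_D2 _ _ _ (PHD_d1 h hh) (PHD_d2 h hh) n hn
    have h5 : ((n : ℝ) + 2) ≤ 2 * N := by exact_mod_cast h4
    have h6 := PHD_b2 N h c hN hh hhN (by linarith) (by linarith)
    rw [← e] at h6
    rw [e0, e1, e2]
    exact h6
  · obtain ⟨c, hc1, hc2, e⟩ := PHD_D3 _ _ _ _ (PHD_d1 h hh) (PHD_d2 h hh) (PHD_d3 h hh) n hn
    have h5 : ((n : ℝ) + 3) ≤ 2 * N := by exact_mod_cast h4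
    have h6 := PHD_b3 N h c hN hh hhN (by linarith) (by linarith)
    rw [← e] at h6
    rw [e0, e1, e2, e3]
    exact h6

end Pool.Agent.LDH
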